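import Mathlib

set_option autoImplicit false
open Set Filter Topology MeasureTheory Metric
open scoped ContDiff ENNReal

namespace Pool.Agent.H.MP_6ded3d_an

abbrev E (n : ℕ) := EuclideanSpace ℝ (Fin n)

variable {n : ℕ}

noncomputable abbrev ν : Measure ℝ := volume.restrict (Ioc 0 1)

instance : IsProbabilityMeasure ν := ⟨by simp⟩

lemma shear {F : Type} [NormedAddCommGroup F] {g : E n → F} (hg : Integrable g) (v : E n) :
    Integrable (fun p : ℝ × E n => g (p.2 + p.1 • v)) (ν.prod volume) :=
  ((MeasurePreserving.id ν).skew_product (g := fun t z => z + t • v) (by fun_prop)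
    (.of_forall fun t => map_add_right_eq_self volume _)).integrable_comp_of_integrable
    (g := fun p : ℝ × E n => g p.2) (hg.comp_snd ν)

lemma line {w : E n → E n} {G : E n → E n →L[ℝ] E n} (hw : Integrable w) (hG : Integrable G)
    {x0 : E n} {R : ℝ} (H : ∀ φ : E n → ℝ, ContDiff ℝ ∞ φ → HasCompactSupport φ →
      tsupport φ ⊆ ball x0 (2 * R) → ∀ v, ∫ x, fderiv ℝ φ x v • w x = -∫ x, φ x • G x v)
    {v : E n} (hv : v ∈ ball (0 : E n) R) :
    ∀ᵐ z, z ∈ ball x0 R → w (z + v) - w z = ∫ t, G (z + t • v) v ∂ν := by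
  have Gv : Integrable fun x => G x v := hG.apply_continuousLinearMap v
  have S := shear Gv v
  have w1 := hw.comp_add_right v
  have := isOpen_ball.ae_eq_zero_of_integral_contDiff_smul_eq_zero (U := ball x0 R) (μ := volume)
    (f := fun z => w (z + v) - w z - ∫ t, G (z + t • v) v ∂ν)
    (((w1.sub hw).sub S.integral_prod_right).locallyIntegrable.locallyIntegrableOn _) ?_
  · exact this.mono fun z h hz => sub_eq_zero.1 (h hz)
  intro φ h1 h2 h3
  have c0 := h1.continuous
  have c1 := h1.continuous_fderiv (by simp)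
  obtain ⟨C, hC⟩ := c0.bounded_above_of_compact_support h2
  obtain ⟨D, hD⟩ := (c1.clm_apply (continuous_const (y := v))).bounded_above_of_compact_support
    (h2.fderiv_apply ℝ v)
  have I : ∀ {f : E n → E n}, Integrable f → Integrable fun z => φ z • f z := fun hf =>
    hf.bdd_smul C c0.aestronglyMeasurable (.of_forall hC)
  have d := h1.differentiable (by simp)
  have e1 : ∫ z, φ z • ∫ t, G (z + t • v) v ∂ν = ∫ t, (∫ z, φ z • G (z + t • v) v) ∂ν := by
    rw [integral_integral_swap (S.bdd_smul C (by fun_prop) (.of_forall fun p => hC _))]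
    simp only [integral_smul]
  have e2 : ∀ t ∈ Ioc (0 : ℝ) 1, ∫ z, φ z • G (z + t • v) v =
      -∫ y, fderiv ℝ φ (y - t • v) v • w y := fun t ht => by
    have := H (fun y => φ (y - t • v)) (by fun_prop)
      (h2.comp_homeomorph (Homeomorph.subRight (t • v))) (fun y hy => ?_) v
    · simp only [fderiv_comp_sub] at this
      rw [this, neg_neg, ← integral_add_right_eq_self (fun y => φ (y - t • v) • G y v) (t • v)]
      simp
    have k : y - t • v ∈ tsupport φ :=
      (tsupport_comp_subset_preimage φ (f := fun y => y - t • v) (by fun_prop)) hy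
    have k1 := mem_ball_iff_norm.1 (h3 k)
    have k2 : ‖t • v‖ < R := by
      rw [norm_smul, Real.norm_of_nonneg ht.1.le]
      exact (mul_le_of_le_one_left (norm_nonneg _) ht.2).trans_lt (mem_ball_zero_iff.1 hv)
    rw [mem_ball_iff_norm, show y - x0 = (y - t • v - x0) + t • v by abel]
    linarith [norm_add_le (y - t • v - x0) (t • v)]
  have e3 : ∀ y, ∫ t, fderiv ℝ φ (y - t • v) v ∂ν = φ y - φ (y - v) := fun y => by
    rw [← intervalIntegral.integral_of_le zero_le_one,
      intervalIntegral.integral_eq_sub_of_hasDerivAt (f := fun t => -φ (y - t • v))]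
    · simp; ring
    · intro t _
      exact ((d (y - t • v)).hasFDerivAt.comp_hasDerivAt t
        (((hasDerivAt_id t).smul_const v).const_sub y)).neg.congr_deriv (by simp)
    · exact Continuous.intervalIntegrable (by fun_prop) _ _
  simp only [smul_sub]
  rw [integral_sub (by exact (I w1).sub (I hw)) (by exact I S.integral_prod_right), e1,
    setIntegral_congr_fun measurableSet_Ioc e2, integral_neg, integral_integral_swap
      ((hw.comp_snd ν).bdd_smul D (by fun_prop) (.of_forall fun p => hD _)), integral_sub (I w1) (I hw)]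
  simp only [integral_smul_const, e3, sub_smul]
  rw [integral_sub (I hw) (by exact hw.bdd_smul C (by fun_prop) (.of_forall fun p => hC _)),
    ← integral_add_right_eq_self (fun y => φ (y - v) • w y) v]
  simp

/-- Mean first order approximation at `z`. -/
def P (h : E n → E n) (A : E n →L[ℝ] E n) (z : E n) (ε δ : ℝ) : Prop :=
  ∀ r ∈ Ioo 0 δ, ∫⁻ y in closedBall z r, ‖h y - h z - A (y - z)‖ₑ ≤
    ENNReal.ofReal (ε * r) * volume (closedBall z r)

lemma avg {f : ℝ → E n} (hf : Measurable f) (c : E n) : ‖∫ t, f t ∂ν - c‖ₑ ≤ ∫⁻ t, ‖f t - c‖ₑ ∂ν := by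
  by_cases h : Integrable f ν
  · refine le_trans (le_of_eq ?_) (enorm_integral_le_lintegral_enorm _)
    rw [integral_sub h (integrable_const c)]; simp
  · refine le_top.trans (not_lt.1 fun k => h ?_)
    have : Integrable (fun t => f t - c) ν := ⟨by fun_prop, k⟩
    exact (this.add (integrable_const c)).congr (.of_forall fun t => by simp)

lemma scal {k : E n → ℝ≥0∞} (hk : Measurable k) {t r : ℝ} (ht : 0 < t) :
    ∫⁻ v in closedBall 0 r, k (t • v) =
      ENNReal.ofReal |(t ^ n)⁻¹| * ∫⁻ v in closedBall 0 (t * r), k v := by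
  have := lintegral_map (μ := volume) (hk.indicator (measurableSet_closedBall (x := 0) (ε := t * r)))
    (measurable_const_smul t)
  rw [Measure.map_addHaar_smul _ ht.ne', lintegral_smul_measure,
    lintegral_indicator measurableSet_closedBall] at this
  simp only [finrank_euclideanSpace, Fintype.card_fin, smul_eq_mul] at this
  rw [this, ← lintegral_indicator measurableSet_closedBall]
  congr 1; ext v
  simp [indicator, norm_smul, abs_of_pos ht, ht]

lemma l1d {w : E n → E n} {G : E n → E n →L[ℝ] E n} (hw : Integrable w) (hG : Integrable G)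
    (mw : Measurable w) (mG : StronglyMeasurable G)
    {x0 : E n} {R : ℝ} (hR : 0 < R) (H : ∀ φ : E n → ℝ, ContDiff ℝ ∞ φ → HasCompactSupport φ →
      tsupport φ ⊆ ball x0 (2 * R) → ∀ v, ∫ x, fderiv ℝ φ x v • w x = -∫ x, φ x • G x v) :
    ∀ᵐ z, z ∈ ball x0 R → ∀ ε > 0, ∃ δ > 0, P w (G z) z ε δ := by
  have m1 : StronglyMeasurable fun p : (E n × E n) × ℝ => G (p.1.2 + p.2 • p.1.1) p.1.1 :=
    (isBoundedBilinearMap_apply.continuous.comp_stronglyMeasurable
      ((mG.comp_measurable (g := fun p : (E n × E n) × ℝ => p.1.2 + p.2 • p.1.1) (by fun_prop)).prodMk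
        (measurable_fst.fst.stronglyMeasurable)) :)
  have a : ∀ᵐ z, ∀ᵐ v, v ∈ ball (0 : E n) R → z ∈ ball x0 R →
      w (z + v) - w z = ∫ t, G (z + t • v) v ∂ν := by
    refine (Measure.ae_ae_comm ?_).1 (.of_forall fun v => ?_)
    · have := measurableSet_eq_fun (f := fun p : E n × E n => w (p.2 + p.1) - w p.2) (by fun_prop)
        (m1.integral_prod_right' (ν := ν)).measurable
      exact (measurable_fst measurableSet_ball).imp ((measurable_snd measurableSet_ball).imp this)
    · by_cases hv : v ∈ ball (0 : E n) R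
      · exact (line hw hG H hv).mono fun z h _ => h
      · exact .of_forall fun z h => (hv h).elim
  filter_upwards [a, (Besicovitch.vitaliFamily volume).ae_tendsto_lintegral_enorm_sub_div
    hG.locallyIntegrable] with z h1 h2 hz ε hε
  have h3 := (h2.comp (Besicovitch.tendsto_filterAt volume z)).eventually
    (ge_mem_nhds (ENNReal.ofReal_pos.2 hε))
  obtain ⟨δ, d0, hd⟩ := (nhdsGT_basis 0).eventually_iff.1 h3
  refine ⟨min δ R, lt_min d0 hR, fun r hr => ?_⟩
  have tr : ∀ (k : E n → ℝ≥0∞) (ρ : ℝ), ∫⁻ y in closedBall z ρ, k y =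
      ∫⁻ v in closedBall 0 ρ, k (z + v) := fun k ρ => by
    rw [← lintegral_indicator measurableSet_closedBall, ← lintegral_indicator measurableSet_closedBall,
      ← lintegral_add_left_eq_self _ z]
    congr 1; ext v; simp [indicator]
  have mk : Measurable fun v => ‖G (z + v) - G z‖ₑ :=
    ((mG.comp_measurable (by fun_prop)).sub stronglyMeasurable_const).enorm
  rw [tr, Measure.addHaar_closedBall_center]
  calc _ ≤ ∫⁻ v in closedBall (0 : E n) r, ∫⁻ t, ENNReal.ofReal r * ‖G (z + t • v) - G z‖ₑ ∂ν := by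
        refine setLIntegral_mono_ae' measurableSet_closedBall (h1.mono fun v h hv => ?_)
        have v1 := mem_closedBall_zero_iff.1 hv
        rw [h (mem_ball_zero_iff.2 (v1.trans_lt (hr.2.trans_le (min_le_right _ _)))) hz,
          add_sub_cancel_left]
        refine (avg (m1.measurable.comp (f := fun t => ((v, z), t)) (by fun_prop)) _).trans
          (lintegral_mono fun t => ?_)
        refine ((G (z + t • v) - G z).le_opENorm v).trans ?_
        rw [mul_comm, ← ofReal_norm v]
        gcongr
    _ = ∫⁻ t, (∫⁻ v in closedBall (0 : E n) r, ENNReal.ofReal r * ‖G (z + t • v) - G z‖ₑ) ∂ν :=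
        lintegral_lintegral_swap (Measurable.aemeasurable (measurable_const.mul
          (mk.comp (f := fun p : E n × ℝ => p.2 • p.1) (by fun_prop))))
    _ ≤ ∫⁻ _, ENNReal.ofReal (ε * r) * volume (closedBall (0 : E n) r) ∂ν := by
        refine setLIntegral_mono' measurableSet_Ioc fun t ht => ?_
        have p : 0 < t * r := mul_pos ht.1 hr.1
        have q := hd (x := t * r) ⟨p, (mul_le_of_le_one_left hr.1.le ht.2).trans_lt
          (hr.2.trans_le (min_le_left _ _))⟩
        simp only [Function.comp] at q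
        rw [ENNReal.div_le_iff (measure_closedBall_pos _ _ p).ne' measure_closedBall_lt_top.ne, tr,
          Measure.addHaar_closedBall_center] at q
        have s := scal (n := n) (k := fun _ => 1) measurable_const (r := r) ht.1
        simp only [setLIntegral_one] at s
        rw [lintegral_const_mul' _ _ ENNReal.ofReal_ne_top, scal mk ht.1, s, mul_comm ε,
          ENNReal.ofReal_mul hr.1.le, mul_assoc, mul_left_comm (ENNReal.ofReal ε)]
        gcongr
    _ = _ := by simp

lemma est {h : E n → E n} (mh : Measurable h) {A : E n →L[ℝ] E n} {z : E n}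
    (hz : ∀ ε > 0, ∃ δ > 0, P h A z ε δ) {k δ0 : ℝ} (hk : 0 ≤ k) (d0 : 0 < δ0) {ε : ℝ} (hε : 0 < ε) :
    ∃ δ > 0, ∀ x ∈ ball z δ, P h 0 x k δ0 → ‖h x - h z - A (x - z)‖ ≤ ε * ‖x - z‖ := by
  obtain ⟨η, η0, η1, η2⟩ : ∃ η : ℝ, 0 < η ∧ η ≤ 1 ∧ (k + ‖A‖) * η ≤ ε / 2 := by
    refine ⟨min 1 (ε / 2 / (k + ‖A‖ + 1)), by positivity, min_le_left _ _, ?_⟩
    calc _ ≤ (k + ‖A‖ + 1) * (ε / 2 / (k + ‖A‖ + 1)) := 
          mul_le_mul (by linarith) (min_le_right _ _) (by positivity) (by positivity)
      _ = _ := by field_simp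
  obtain ⟨δ, δp, hδ⟩ := hz (ε / 4 * (η / 2) ^ n) (by positivity)
  refine ⟨min δ0 (δ / 2), by positivity, fun x hx hP => ?_⟩
  by_cases e : x = z
  · simp [e]
  set ρ := ‖x - z‖ with hρ
  have ρ0 : 0 < ρ := norm_pos_iff.2 (sub_ne_zero.2 e)
  have ρ1 := lt_min_iff.1 (mem_ball_iff_norm.1 hx)
  have q1 := hP (η * ρ) ⟨by positivity, (mul_le_of_le_one_left ρ0.le η1).trans_lt ρ1.1⟩
  have q2 := hδ (2 * ρ) ⟨by positivity, by linarith [ρ1.2]⟩
  have sb : closedBall x (η * ρ) ⊆ closedBall z (2 * ρ) :=
    closedBall_subset_closedBall' (by rw [dist_eq_norm]; nlinarith)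
  have v2 : ENNReal.ofReal (ε / 4 * (η / 2) ^ n * (2 * ρ)) * volume (closedBall z (2 * ρ)) =
      ENNReal.ofReal (ε / 2 * ρ) * volume (closedBall x (η * ρ)) := by
    rw [Measure.addHaar_closedBall _ _ (by positivity), Measure.addHaar_closedBall _ _ (by positivity),
      ← mul_assoc (ENNReal.ofReal _), ← mul_assoc (ENNReal.ofReal _), ← ENNReal.ofReal_mul (by positivity),
      ← ENNReal.ofReal_mul (by positivity)]
    simp only [finrank_euclideanSpace, Fintype.card_fin, mul_pow, div_pow]
    congr 2; field_simp; ring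
  rw [v2] at q2
  simp only [ContinuousLinearMap.zero_apply, sub_zero] at q1
  have key : ‖h x - h z - A (x - z)‖ₑ * volume (closedBall x (η * ρ)) ≤
      ENNReal.ofReal (ε * ρ) * volume (closedBall x (η * ρ)) := calc
    _ = ∫⁻ _ in closedBall x (η * ρ), ‖h x - h z - A (x - z)‖ₑ := by simp
    _ ≤ ∫⁻ y in closedBall x (η * ρ), (‖h y - h x‖ₑ + ENNReal.ofReal (‖A‖ * (η * ρ))) +
        ‖h y - h z - A (y - z)‖ₑ := by
      refine setLIntegral_mono' measurableSet_closedBall fun y hy => ?_
      simp only [← ofReal_norm]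
      rw [← ENNReal.ofReal_add (by positivity) (by positivity),
        ← ENNReal.ofReal_add (by positivity) (by positivity)]
      refine ENNReal.ofReal_le_ofReal ?_
      have a1 : ‖A (y - x)‖ ≤ ‖A‖ * (η * ρ) := A.le_of_opNorm_le_of_le le_rfl (mem_closedBall_iff_norm.1 hy)
      have a2 : h x - h z - A (x - z) = A (y - x) - (h y - h x) + (h y - h z - A (y - z)) := by
        simp only [map_sub]; abel
      rw [a2]
      linarith [norm_add_le (A (y - x) - (h y - h x)) (h y - h z - A (y - z)),
        norm_sub_le (A (y - x)) (h y - h x)]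
    _ ≤ (ENNReal.ofReal (k * (η * ρ)) + ENNReal.ofReal (‖A‖ * (η * ρ)) + ENNReal.ofReal (ε / 2 * ρ)) *
        volume (closedBall x (η * ρ)) := by
      rw [lintegral_add_left (by fun_prop), lintegral_add_right _ measurable_const, setLIntegral_const,
        add_mul, add_mul]
      gcongr
      exact (lintegral_mono_set sb).trans q2
    _ ≤ _ := by
      rw [← ENNReal.ofReal_add (by positivity) (by positivity),
        ← ENNReal.ofReal_add (by positivity) (by positivity)]
      gcongr
      nlinarith
  rw [ENNReal.mul_le_mul_iff_left (measure_closedBall_pos _ _ (by positivity)).ne'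
    measure_closedBall_lt_top.ne, ← ofReal_norm] at key
  exact (ENNReal.ofReal_le_ofReal_iff (by positivity)).1 key

lemma area0 {Ω D : Set (E n)} {h : E n → E n} {G : E n → E n →L[ℝ] E n} (hD : MeasurableSet D)
    (sb : D ⊆ Ω) (ho : IsOpen Ω) (mh : Measurable h) (ch : ContinuousOn h Ω) (ih : InjOn h Ω)
    (H : ∀ z ∈ D, ∀ ε > 0, ∃ δ > 0, P h (G z) z ε δ) :
    ∫⁻ x in D, ENNReal.ofReal |(G x).det| ≤ volume (h '' Ω) := by
  let S : ℕ → Set (E n) := fun k => {x | P h 0 x k (1 / (k + 1))}
  have mS : Monotone S := fun a b ab x hx r hr => by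
    have : (a : ℝ) ≤ b := by exact_mod_cast ab
    refine (hx r ⟨hr.1, hr.2.trans_le (by gcongr)⟩).trans ?_
    have := hr.1
    gcongr
  have U : D = ⋃ k, D ∩ closure (S k) := by
    refine Subset.antisymm (fun z hz => ?_) (iUnion_subset fun k => inter_subset_left)
    obtain ⟨δ, d0, hδ⟩ := H z hz 1 one_pos
    obtain ⟨k, hk⟩ := exists_nat_ge (max (1 + ‖G z‖) (1 / δ))
    rw [max_le_iff, div_le_iff₀ d0] at hk
    refine mem_iUnion.2 ⟨k, hz, subset_closure fun r hr => ?_⟩
    have r0 := hr.1
    have q := hδ r ⟨r0, hr.2.trans_le (by rw [div_le_iff₀ (by positivity)]; nlinarith)⟩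
    calc _ ≤ ∫⁻ y in closedBall z r, ‖h y - h z - G z (y - z)‖ₑ + ENNReal.ofReal (‖G z‖ * r) := by
          refine setLIntegral_mono' measurableSet_closedBall fun y hy => ?_
          simp only [← ofReal_norm]
          rw [← ENNReal.ofReal_add (by positivity) (by positivity)]
          refine ENNReal.ofReal_le_ofReal ?_
          have a1 : ‖G z (y - z)‖ ≤ ‖G z‖ * r :=
            (G z).le_of_opNorm_le_of_le le_rfl (mem_closedBall_iff_norm.1 hy)
          have := norm_add_le (h y - h z - G z (y - z)) (G z (y - z))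
          simp only [sub_add_cancel, ContinuousLinearMap.zero_apply, sub_zero] at this ⊢
          linarith
      _ ≤ (ENNReal.ofReal (1 * r) + ENNReal.ofReal (‖G z‖ * r)) * volume (closedBall z r) := by
          rw [lintegral_add_right _ measurable_const, setLIntegral_const, add_mul]; gcongr
      _ ≤ _ := by
          rw [← ENNReal.ofReal_add (by positivity) (by positivity), ← add_mul]; gcongr; exact hk.1
  rw [U, setLIntegral_iUnion_of_directed _ (Monotone.directed_le fun a b ab =>
    inter_subset_inter_right _ (closure_mono (mS ab)))]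
  refine iSup_le fun k => (lintegral_abs_det_fderiv_le_addHaar_image volume
    (hD.inter isClosed_closure.measurableSet) (fun z hz => ?_)
    (ih.mono (inter_subset_left.trans sb))).trans (measure_mono (image_mono (inter_subset_left.trans sb)))
  rw [hasFDerivWithinAt_iff_isLittleO, Asymptotics.isLittleO_iff]
  intro ε hε
  obtain ⟨δ, d0, hδ⟩ := est mh (H z hz.1) (k := k) (δ0 := 1 / (k + 1)) (by positivity) (by positivity) hε
  filter_upwards [self_mem_nhdsWithin, mem_nhdsWithin_of_mem_nhds (ball_mem_nhds z d0)] with x h1 h2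
  have c := ch.continuousAt (ho.mem_nhds (sb h1.1))
  exact ContinuousWithinAt.closure_le (s := ball z δ ∩ S k) (f := fun x => ‖h x - h z - G z (x - z)‖)
    (g := fun x => ε * ‖x - z‖) (isOpen_ball.inter_closure ⟨h2, h1.2⟩)
    (ContinuousAt.continuousWithinAt (by fun_prop)) (ContinuousAt.continuousWithinAt (by fun_prop))
    fun y hy => hδ y hy.1 hy.2

theorem area {Ω : Set (E n)} {h : E n → E n} {G : E n → E n →L[ℝ] E n} (ho : IsOpen Ω)
    (ch : ContinuousOn h Ω) (ih : InjOn h Ω) (hG : LocallyIntegrableOn G Ω)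
    (H : ∀ φ : E n → ℝ, ContDiff ℝ ∞ φ → HasCompactSupport φ → tsupport φ ⊆ Ω → ∀ v,
      ∫ x in Ω, fderiv ℝ φ x v • h x = -∫ x in Ω, φ x • G x v) :
    ∫⁻ x in Ω, ENNReal.ofReal |(G x).det| ≤ volume (h '' Ω) := by
  classical
  have mo := ho.measurableSet
  have m := hG.aestronglyMeasurable
  set G' := m.mk G
  have e : ∀ᵐ x, x ∈ Ω → G x = G' x := (ae_restrict_iff' mo).1 m.ae_eq_mk
  set h' := Ω.piecewise h 0
  have e' : ∀ x ∈ Ω, h' x = h x := fun x hx => piecewise_eq_of_mem _ _ _ hx
  have mh : Measurable h' := ch.measurable_piecewise continuousOn_const mo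
  have ch' : ContinuousOn h' Ω := ch.congr e'
  set s := {z ∈ Ω | ¬ ∀ ε > 0, ∃ δ > 0, P h' (G' z) z ε δ}
  have s0 : volume s = 0 := by
    refine measure_null_of_locally_null s fun x0 hx => ?_
    obtain ⟨R', R0, hR⟩ := nhds_basis_closedBall.mem_iff.1 (ho.mem_nhds hx.1)
    obtain ⟨R, rfl⟩ : ∃ R, R' = 2 * R := ⟨R' / 2, by ring⟩
    have Rp : 0 < R := by linarith
    have mK : MeasurableSet (closedBall x0 (2 * R)) := measurableSet_closedBall
    have cK := isCompact_closedBall x0 (2 * R)
    have i1 : IntegrableOn G' (closedBall x0 (2 * R)) := (hG.integrableOn_compact_subset hR cK).congr_fun_ae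
      ((ae_restrict_iff' mK).2 (e.mono fun x k hx => k (hR hx)))
    have i2 : Integrable ((closedBall x0 (2 * R)).indicator G') :=
      ⟨(m.stronglyMeasurable_mk.indicator mK).aestronglyMeasurable, by
        have := i1.2
        rw [HasFiniteIntegral] at this ⊢
        rw [← lintegral_indicator mK] at this
        refine lt_of_eq_of_lt (lintegral_congr fun x => ?_) this
        by_cases k : x ∈ closedBall x0 (2 * R) <;> simp [k, ← ofReal_norm]⟩
    have := l1d ((integrable_indicator_iff mK).2 ((ch'.mono hR).integrableOn_compact cK))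
      (G := (closedBall x0 (2 * R)).indicator G') i2 (mh.indicator mK) (m.stronglyMeasurable_mk.indicator mK) Rp
      (x0 := x0) fun φ h1 h2 h3 v => ?_
    · refine ⟨s ∩ ball x0 R, inter_mem_nhdsWithin _ (ball_mem_nhds _ Rp), measure_mono_null ?_ (mem_ae_iff.1 this)⟩
      refine fun z hz k => hz.1.2 fun ε hε => ?_
      obtain ⟨δ, d0, hδ⟩ := k hz.2 ε hε
      have sb : ∀ r < R, closedBall z r ⊆ closedBall x0 (2 * R) := fun r hr =>
        closedBall_subset_closedBall' (by linarith [mem_ball.1 hz.2])
      refine ⟨min δ R, lt_min d0 Rp, fun r hr => le_trans (le_of_eq ?_)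
        (hδ r ⟨hr.1, hr.2.trans_le (min_le_left _ _)⟩)⟩
      have sb' := sb r (hr.2.trans_le (min_le_right _ _))
      have zm := sb' (mem_closedBall_self hr.1.le)
      refine setLIntegral_congr_fun measurableSet_closedBall fun y hy => ?_
      simp only [indicator_of_mem zm, indicator_of_mem (sb' hy)]
    have h4 := h3.trans ball_subset_closedBall
    have := H φ h1 h2 (h4.trans hR) v
    rw [← integral_indicator mo, ← integral_indicator mo] at this
    refine Eq.trans (integral_congr_ae (.of_forall fun x => ?_)) (this.trans (congrArg _ ?_))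
    · simp only
      by_cases k : x ∈ closedBall x0 (2 * R)
      · simp only [indicator_of_mem k, indicator_of_mem (hR k), e' x (hR k)]
      · have : fderiv ℝ φ x v = 0 := image_eq_zero_of_notMem_tsupport
          (f := fun x => fderiv ℝ φ x v) fun j => k (h4 (tsupport_fderiv_apply_subset ℝ _ j))
        simp [indicator, this]
    · refine integral_congr_ae (e.mono fun x j => ?_)
      by_cases k : x ∈ closedBall x0 (2 * R)
      · simp only [indicator_of_mem k, indicator_of_mem (hR k), j (hR k)]
      · have : φ x = 0 := image_eq_zero_of_notMem_tsupport fun j => k (h4 j)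
        simp [indicator, this]
  have := area0 (G := G') (mo.diff (measurableSet_toMeasurable volume s)) sdiff_subset ho mh ch'
    (ih.congr fun x hx => (e' x hx).symm) fun z hz => by
      by_contra k
      exact hz.2 (subset_toMeasurable _ _ ⟨hz.1, k⟩)
  rw [setLIntegral_congr (sdiff_ae_eq_self.2 (measure_mono_null inter_subset_right
    (by rw [measure_toMeasurable, s0]))), image_congr e'] at this
  refine le_trans (le_of_eq (lintegral_congr_ae (m.ae_eq_mk.mono fun x hx => ?_))) this
  simp only [hx, G']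

end Pool.Agent.H.MP_6ded3d_an
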