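import Pool.Agent.H.MP_6ded3d_an.A

set_option autoImplicit false
open Set Filter Topology MeasureTheory Metric
open scoped ContDiff ENNReal

namespace Pool.Agent.H.MP_6ded3d_an

variable {n : ℕ}

noncomputable def cm (A : Matrix (Fin n) (Fin n) ℝ) : E n →L[ℝ] E n :=
  LinearMap.toContinuousLinearMap (Matrix.toEuclideanLin A)

lemma cm_apply (A : Matrix (Fin n) (Fin n) ℝ) (v : E n) (i : Fin n) : cm A v i = ∑ j, A i j * v j := rfl

lemma cm_det (A : Matrix (Fin n) (Fin n) ℝ) : (cm A).det = A.det := by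
  rw [cm, ContinuousLinearMap.det, LinearMap.coe_toContinuousLinearMap, Matrix.toEuclideanLin_eq_toLin,
    LinearMap.det_toLin]

noncomputable def pd (φ : E n → ℝ) (j : Fin n) (x : E n) : ℝ := fderiv ℝ φ x (EuclideanSpace.single j 1)

lemma pd_sum (φ : E n → ℝ) (x v : E n) : fderiv ℝ φ x v = ∑ j, v j * pd φ j x := by
  conv_lhs => rw [← (EuclideanSpace.basisFun (Fin n) ℝ).sum_repr v]
  simp [pd]

lemma intO {F : Type} [NormedAddCommGroup F] [NormedSpace ℝ F] {Ω : Set (E n)} (ho : IsOpen Ω)
    {f : E n → F} (hf : LocallyIntegrableOn f Ω) {ψ φ : E n → ℝ} (c : Continuous ψ)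
    (h2 : HasCompactSupport φ) (h3 : tsupport φ ⊆ Ω) (h4 : tsupport ψ ⊆ tsupport φ) :
    IntegrableOn (fun x => ψ x • f x) Ω :=
  ((hf.integrableOn_compact_subset h3 h2).continuousOn_smul c.continuousOn h2).of_forall_sdiff_eq_zero
    ho.measurableSet fun x hx => by
      rw [image_eq_zero_of_notMem_tsupport fun k => hx.2 (h4 k), zero_smul]

/-- Weak derivative, in coordinates. -/
def Wk (Ω : Set (E n)) (w : E n → ℝ) (W : Fin n → E n → ℝ) : Prop :=
  ∀ φ : E n → ℝ, ContDiff ℝ ∞ φ → HasCompactSupport φ → tsupport φ ⊆ Ω → ∀ j,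
    ∫ x in Ω, w x * pd φ j x = -∫ x in Ω, W j x * φ x

lemma pc {φ : E n → ℝ} (h1 : ContDiff ℝ ∞ φ) (j : Fin n) : Continuous (pd φ j) :=
  (h1.continuous_fderiv (by simp)).clm_apply continuous_const

theorem areaM {Ω : Set (E n)} {h : E n → E n} {D : E n → Matrix (Fin n) (Fin n) ℝ} (ho : IsOpen Ω)
    (ch : ContinuousOn h Ω) (ih : InjOn h Ω) (hD : ∀ i j, LocallyIntegrableOn (fun x => D x i j) Ω)
    (H : ∀ i, Wk Ω (fun x => h x i) fun j x => D x i j) :
    ∫⁻ x in Ω, ENNReal.ofReal |(D x).det| ≤ volume (h '' Ω) := by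
  have hG : LocallyIntegrableOn (fun x => cm (D x)) Ω := by
    rw [locallyIntegrableOn_iff ho.isLocallyClosed]
    intro k k1 k2
    have : (fun x => cm (D x)) = fun x => ∑ i, ∑ j, D x i j • cm (Matrix.single i j 1) := by
      ext x v i; simp [cm_apply, Matrix.single_apply, ite_and]
    rw [this]
    have I : ∀ i j, Integrable (fun x => D x i j • cm (Matrix.single i j 1)) (volume.restrict k) :=
      fun i j => Integrable.smul_const ((hD i j).integrableOn_compact_subset k1 k2) _
    exact integrable_finsetSum (ε' := E n →L[ℝ] E n) _ fun i _ =>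
      integrable_finsetSum (ε' := E n →L[ℝ] E n) _ fun j _ => I i j
  simp only [← cm_det]
  refine area ho ch ih hG fun φ h1 h2 h3 v => ?_
  have lh := ch.locallyIntegrableOn (μ := volume) ho.measurableSet
  have t := tsupport_fderiv_apply_subset (f := φ) ℝ
  have i1 := intO ho lh ((h1.continuous_fderiv (by simp)).clm_apply continuous_const) h2 h3 (t v)
  have i2 : IntegrableOn (fun x => φ x • cm (D x) v) Ω :=
    (intO ho hG h1.continuous h2 h3 subset_rfl).apply_continuousLinearMap v
  ext i
  have e1 := (EuclideanSpace.proj (𝕜 := ℝ) i).integral_comp_comm i1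
  have e2 := (EuclideanSpace.proj (𝕜 := ℝ) i).integral_comp_comm i2
  simp only [PiLp.proj_apply, PiLp.smul_apply, smul_eq_mul] at e1 e2
  rw [PiLp.neg_apply, ← e1, ← e2]
  have lh' : LocallyIntegrableOn (fun x => h x i) Ω :=
    ((EuclideanSpace.proj (𝕜 := ℝ) i).continuous.comp_continuousOn ch).locallyIntegrableOn ho.measurableSet
  simp only [pd_sum φ _ v, cm_apply, Finset.sum_mul, Finset.mul_sum]
  rw [integral_finsetSum _ fun j _ => ((intO ho lh' (pc h1 j) h2 h3 (t _)).const_mul (v j)).congr
      (.of_forall fun x => by simp [mul_assoc]),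
    integral_finsetSum _ fun j _ => ((intO ho (hD i j) h1.continuous h2 h3 subset_rfl).const_mul (v j)).congr
      (.of_forall fun x => by simp only [smul_eq_mul]; ring), ← Finset.sum_neg_distrib]
  refine Finset.sum_congr rfl fun j _ => ?_
  have := congrArg (v j * ·) (H i φ h1 h2 h3 j)
  simp only [mul_neg, ← integral_const_mul] at this
  exact Eq.trans (integral_congr_ae (.of_forall fun x => by ring))
    (this.trans (congrArg _ (integral_congr_ae (.of_forall fun x => by ring))))

lemma wk_of {Ω : Set (E n)} (ho : IsOpen Ω) {w : E n → ℝ} {W : Fin n → E n → ℝ}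
    (cw : ∀ x ∈ Ω, DifferentiableAt ℝ w x) (e : ∀ j, ∀ x ∈ Ω, pd w j x = W j x)
    (cW : ∀ j, ContinuousOn (W j) Ω) : Wk Ω w W := fun φ h1 h2 h3 j => by
  have t := tsupport_fderiv_apply_subset (f := φ) ℝ (EuclideanSpace.single j 1)
  have z1 : ∀ x ∉ Ω, φ x = 0 := fun x hx => image_eq_zero_of_notMem_tsupport fun k => hx (h3 k)
  have z2 : ∀ x ∉ Ω, pd φ j x = 0 := fun x hx => image_eq_zero_of_notMem_tsupport fun k => hx (h3 (t k))
  have mo := ho.measurableSet
  have lw := (continuousOn_of_forall_continuousAt fun x hx => (cw x hx).continuousAt).locallyIntegrableOn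
    (μ := volume) mo
  have I : ∀ {f ψ : E n → ℝ}, IntegrableOn (fun x => ψ x • f x) Ω → (∀ x ∉ Ω, ψ x = 0) →
      Integrable fun x => f x * ψ x := fun hf hz => (integrableOn_univ.1 (hf.of_forall_sdiff_eq_zero
        .univ fun x hx => by simp [hz x hx.2])).congr (.of_forall fun x => by simp [mul_comm])
  have lW : LocallyIntegrableOn (pd w j) Ω := ((cW j).congr (e j)).locallyIntegrableOn mo
  rw [setIntegral_congr_fun mo (f := fun x => W j x * φ x) (g := fun x => pd w j x * φ x)
      fun x hx => by simp only [e j x hx],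
    setIntegral_eq_integral_of_forall_compl_eq_zero fun x hx => by simp [z2 x hx],
    setIntegral_eq_integral_of_forall_compl_eq_zero fun x hx => by simp [z1 x hx]]
  exact integral_mul_fderiv_eq_neg_fderiv_mul_of_integrable
    (I (intO ho lW h1.continuous h2 h3 subset_rfl) z1) (I (intO ho lw (pc h1 j) h2 h3 t) z2)
    (I (intO ho lw h1.continuous h2 h3 subset_rfl) z1) (fun x hx => cw x (h3 hx))
    fun x _ => h1.differentiable (by simp) x

lemma chi : ∃ M, ∀ t, |deriv Real.smoothTransition t| ≤ M ∧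
    (1 < t → deriv Real.smoothTransition t = 0) := by
  have a : ∀ t : ℝ, 1 < t → deriv Real.smoothTransition t = 0 := fun t ht => by
    rw [Filter.EventuallyEq.deriv_eq (f := fun _ => (1 : ℝ)) ((lt_mem_nhds ht).mono fun s hs =>
      Real.smoothTransition.one_of_one_le hs.le)]; simp
  have b : ∀ t : ℝ, t < 0 → deriv Real.smoothTransition t = 0 := fun t ht => by
    rw [Filter.EventuallyEq.deriv_eq (f := fun _ => (0 : ℝ)) ((gt_mem_nhds ht).mono fun s hs =>
      Real.smoothTransition.zero_of_nonpos hs.le)]; simp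
  obtain ⟨M, hM⟩ := ((Real.smoothTransition.contDiff (n := 1)).continuous_deriv
    le_rfl).bounded_above_of_compact_support (HasCompactSupport.intro isCompact_Icc (K := Icc 0 1)
      fun t ht => by
        rcases not_and_or.1 ht with h | h
        exacts [b t (not_le.1 h), a t (not_le.1 h)])
  exact ⟨M, fun t => ⟨hM t, a t⟩⟩

theorem cut {c : E 2} {R B : ℝ} (hR : 0 < R) {w : E 2 → ℝ} {W V : Fin 2 → E 2 → ℝ}
    (cw : ContinuousOn w (closedBall c R)) (w0 : ∀ x ∈ sphere c R, w x = 0)
    (iW : ∀ j, IntegrableOn (W j) (ball c R)) (H : Wk (ball c R) w W)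
    (sV : ∀ j, ∀ x ∈ ball c R, ContDiffAt ℝ ∞ (V j) x) (bV : ∀ j, ∀ x ∈ ball c R, |V j x| ≤ B)
    (dV : ∀ x ∈ ball c R, pd (V 0) 0 x + pd (V 1) 1 x = 0) :
    ∫ x in ball c R, (W 0 x * V 0 x + W 1 x * V 1 x) = 0 := by
  obtain ⟨M, hM⟩ := chi
  have mo : MeasurableSet (ball c R) := measurableSet_ball
  have B0 : 0 ≤ B := (abs_nonneg _).trans (bV 0 c (mem_ball_self hR))
  have M0 : 0 ≤ M := (abs_nonneg _).trans (hM 0).1
  let a : ℝ → E 2 → ℝ := fun s x => (R ^ 2 - ‖x - c‖ ^ 2) / s - 1
  let φ : ℝ → E 2 → ℝ := fun s x => Real.smoothTransition (a s x)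
  have sa : ∀ s, ContDiff ℝ ∞ (a s) := fun s =>
    ((contDiff_const.sub ((contDiff_id.sub contDiff_const).norm_sq ℝ)).div_const s).sub contDiff_const
  have s1 : ∀ s, ContDiff ℝ ∞ (φ s) := fun s => Real.smoothTransition.contDiff.comp (sa s)
  have s3 : ∀ s, 0 < s → tsupport (φ s) ⊆ ball c R := fun s hs x hx => by
    have : 0 ≤ a s x := closure_minimal (t := {x | 0 ≤ a s x}) (fun y hy => not_lt.1 fun k =>
      Function.mem_support.1 hy (Real.smoothTransition.zero_of_nonpos k.le)) (isClosed_le continuous_const (sa s).continuous) hx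
    rw [sub_nonneg, one_le_div hs] at this
    exact mem_ball_iff_norm.2 (lt_of_pow_lt_pow_left₀ 2 hR.le (by linarith))
  have s2 : ∀ s, 0 < s → HasCompactSupport (φ s) := fun s hs => (isCompact_closedBall c R).of_isClosed_subset
    (isClosed_tsupport _) ((s3 s hs).trans ball_subset_closedBall)
  have dφ : ∀ s j x, pd (φ s) j x = deriv Real.smoothTransition (a s x) * (-(2 * (x - c) j) / s) :=
    fun s j x => by
      have h1 := (((hasStrictFDerivAt_norm_sq (x - c)).hasFDerivAt.comp x
        ((hasFDerivAt_id x).sub_const c)).const_sub (R ^ 2)).mul_const s⁻¹ |>.sub_const 1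
      have h2 := ((Real.smoothTransition.contDiff (n := 1)).differentiable (by simp)
        (a s x)).hasDerivAt.comp_hasFDerivAt x h1
      rw [pd, show φ s = Real.smoothTransition ∘ a s from rfl, h2.fderiv]
      simp [EuclideanSpace.inner_single_right, div_eq_mul_inv]; left; ring
  have cV : ∀ j, ContinuousOn (V j) (ball c R) := fun j =>
    continuousOn_of_forall_continuousAt fun x hx => (sV j x hx).continuousAt
  have iWV : ∀ j, IntegrableOn (fun x => W j x * V j x) (ball c R) := fun j => (iW j).mul_bdd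
    ((cV j).aestronglyMeasurable mo) ((ae_restrict_iff' mo).2 (.of_forall (bV j)))
  have lw := (cw.mono ball_subset_closedBall).locallyIntegrableOn (μ := volume) mo
  have E1 : ∀ s, 0 < s → ∫ x in ball c R, (W 0 x * V 0 x + W 1 x * V 1 x) * φ s x =
      -∫ x in ball c R, w x * (pd (φ s) 0 x * V 0 x + pd (φ s) 1 x * V 1 x) := fun s hs => by
    have t : ∀ j, tsupport (fun x => φ s x * V j x) ⊆ tsupport (φ s) := fun j => tsupport_mul_subset_left
    have sm : ∀ j, ContDiff ℝ ∞ fun x => φ s x * V j x := fun j => contDiff_iff_contDiffAt.2 fun x => by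
      by_cases hx : x ∈ tsupport fun x => φ s x * V j x
      · exact (s1 s).contDiffAt.mul (sV j x (s3 s hs (t j hx)))
      · exact contDiffAt_const.congr_of_eventuallyEq (notMem_tsupport_iff_eventuallyEq.1 hx)
    have h := fun j => H _ (sm j) (s2 s hs).mul_right ((t j).trans (s3 s hs)) j
    have i1 := fun j => intO isOpen_ball lw (pc (sm j) j) (s2 s hs) (s3 s hs)
      ((tsupport_fderiv_apply_subset ℝ _).trans (t j))
    have i2 := fun j => intO isOpen_ball (iW j).locallyIntegrableOn (sm j).continuous (s2 s hs) (s3 s hs) (t j)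
    simp only [smul_eq_mul, mul_comm _ (w _), mul_comm _ (W _ _)] at i1 i2
    have := congrArg₂ (· + ·) (h 0) (h 1)
    simp only [← neg_add] at this
    rw [← integral_add (i1 0) (i1 1), ← integral_add (i2 0) (i2 1)] at this
    rw [← neg_eq_iff_eq_neg, eq_comm]
    refine Eq.trans (setIntegral_congr_fun mo fun x hx => ?_) (this.trans (by congr 2; ext; ring))
    have d : ∀ j, pd (fun x => φ s x * V j x) j x = φ s x * pd (V j) j x + V j x * pd (φ s) j x := fun j => by
      rw [pd, fderiv_fun_mul ((s1 s).differentiable (by simp) x) ((sV j x hx).differentiableAt (by simp))]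
      simp [pd]
    simp only [d]
    linear_combination (-(w x * φ s x)) * dV x hx
  have L1 : Tendsto (fun s => ∫ x in ball c R, (W 0 x * V 0 x + W 1 x * V 1 x) * φ s x) (𝓝[>] 0)
      (𝓝 (∫ x in ball c R, (W 0 x * V 0 x + W 1 x * V 1 x))) := by
    have i := (iWV 0).add (iWV 1)
    refine tendsto_integral_filter_of_dominated_convergence _ (.of_forall fun s => i.1.mul
      (s1 s).continuous.aestronglyMeasurable) (.of_forall fun s => .of_forall fun x => ?_) i.norm
      ((ae_restrict_iff' mo).2 (.of_forall fun x hx => tendsto_const_nhds.congr' ?_))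
    · rw [norm_mul]
      exact mul_le_of_le_one_right (norm_nonneg _) (by
        rw [Real.norm_of_nonneg (Real.smoothTransition.nonneg _)]; exact Real.smoothTransition.le_one _)
    · have : 0 < (R ^ 2 - ‖x - c‖ ^ 2) / 2 := by
        have := mem_ball_iff_norm.1 hx
        nlinarith [norm_nonneg (x - c)]
      filter_upwards [Ioo_mem_nhdsGT this] with s hs
      rw [show φ s x = 1 from Real.smoothTransition.one_of_one_le (by
        rw [le_sub_iff_add_le, le_div_iff₀ hs.1]; linarith [hs.2]), mul_one]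
  refine tendsto_nhds_unique L1 (Metric.tendsto_nhds.2 fun ε hε => ?_)
  set p := volume.real (ball (0 : E 2) 1)
  have p0 : 0 ≤ p := measureReal_nonneg
  set η := ε / (8 * M * R * B * p + 1)
  have η0 : 0 < η := by positivity
  obtain ⟨δ, δ0, hδ⟩ := Metric.uniformContinuousOn_iff.1
    ((isCompact_closedBall c R).uniformContinuousOn_of_continuous cw) η η0
  have sm : ∀ x ∈ ball c R, R ^ 2 - ‖x - c‖ ^ 2 < min δ R * R → |w x| < η := fun x hx k => by
    have x1 := mem_ball_iff_norm.1 hx
    have x2 : R - ‖x - c‖ < min δ R := by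
      by_contra j
      nlinarith [norm_nonneg (x - c), lt_min δ0 hR]
    have x0 : 0 < ‖x - c‖ := by linarith [min_le_right δ R]
    have y1 : c + (R / ‖x - c‖) • (x - c) ∈ sphere c R := by
      simp [norm_smul, abs_of_pos hR, x0.ne']
    have := hδ x (ball_subset_closedBall hx) _ (sphere_subset_closedBall y1) (by
      rw [dist_eq_norm, show x - (c + (R / ‖x - c‖) • (x - c)) = (1 - R / ‖x - c‖) • (x - c) by module,
        norm_smul, Real.norm_of_nonpos (by rw [sub_nonpos, one_le_div x0]; exact x1.le)]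
      field_simp; linarith [min_le_left δ R])
    rwa [w0 _ y1, dist_zero_right] at this
  filter_upwards [Ioo_mem_nhdsGT (show 0 < min δ R * R / 2 by positivity)] with s hs
  have s0 := hs.1
  have q : 0 ≤ R ^ 2 - 2 * s := by nlinarith [hs.2, min_le_right δ R]
  have sb : closedBall c √(R ^ 2 - 2 * s) ⊆ ball c R :=
    closedBall_subset_ball (Real.sqrt_lt' hR |>.2 (by linarith))
  have sp : sphere c √(R ^ 2 - 2 * s) =ᵐ[volume] (∅ : Set (E 2)) :=
    ae_eq_empty.2 (Measure.addHaar_sphere _ _ _)
  rw [E1 s s0, dist_zero_right, norm_neg, setIntegral_eq_of_subset_of_forall_sdiff_eq_zero mo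
    (sdiff_subset (t := ball c √(R ^ 2 - 2 * s))) fun x hx => ?_]
  · refine (norm_setIntegral_le_of_norm_le_const (C := η * (4 * M * R * B / s))
      ((measure_mono sdiff_subset).trans_lt measure_ball_lt_top) fun x hx => ?_).trans_lt ?_
    · have k : R ^ 2 - 2 * s ≤ ‖x - c‖ ^ 2 := (Real.sqrt_le_left (norm_nonneg _)).1
        (not_lt.1 fun j => hx.2 (mem_ball_iff_norm.2 j))
      have b : ∀ j, |pd (φ s) j x * V j x| ≤ M * (2 * R / s) * B := fun j => by
        have : |(x - c) j| ≤ R := (PiLp.norm_apply_le (x - c) j).trans (mem_ball_iff_norm.1 hx.1).le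
        rw [dφ, abs_mul, abs_mul, abs_div, abs_neg, abs_mul, abs_two, abs_of_pos s0]
        gcongr
        exacts [(hM _).1, bV j x hx.1]
      rw [Real.norm_eq_abs, abs_mul]
      refine mul_le_mul (sm x hx.1 (by linarith [hs.2])).le ((abs_add_le _ _).trans ?_) (abs_nonneg _) η0.le
      calc _ ≤ _ := add_le_add (b 0) (b 1)
        _ = _ := by ring
    · have v : ∀ r, 0 ≤ r → volume.real (ball c r) = r ^ 2 * p := fun r hr => by
        rw [measureReal_def, Measure.addHaar_ball _ _ hr]
        simp [p, measureReal_def, ENNReal.toReal_ofReal (sq_nonneg r)]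
      rw [measureReal_sdiff (ball_subset_closedBall.trans sb) measurableSet_ball measure_ball_lt_top.ne,
        v _ hR.le, v _ (Real.sqrt_nonneg _), Real.sq_sqrt q]
      calc _ = η * (8 * M * R * B * p) := by field_simp; ring
        _ < η * (8 * M * R * B * p + 1) := by gcongr; linarith
        _ = ε := by simp only [η]; field_simp
  · have k : x ∈ ball c √(R ^ 2 - 2 * s) := by_contra fun k => hx.2 ⟨hx.1, k⟩
    rw [mem_ball_iff_norm, Real.lt_sqrt (norm_nonneg _)] at k
    have := (hM (a s x)).2 (by rw [lt_sub_iff_add_lt, lt_div_iff₀ s0]; linarith)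
    simp [dφ, this]

end Pool.Agent.H.MP_6ded3d_an
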