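import Pool.Agent.H.MP_6ded3d_an.B

set_option autoImplicit false
open Set Filter Topology MeasureTheory Metric
open scoped ContDiff ENNReal

namespace Pool.Agent.H.MP_6ded3d_an

noncomputable def a (s : ℝ) : ℝ := max 1 (max s (1 / 8))⁻¹ / (2 * max s (1 / 8))

lemma mpos (s : ℝ) : 0 < max s (1 / 8) := lt_max_of_lt_right (by norm_num)

lemma ac : Continuous a := by
  have := mpos
  exact (continuous_const.max ((continuous_id.max continuous_const).inv₀ fun s => (this s).ne')).div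
    (by fun_prop) fun s => by have := this s; positivity

noncomputable def U (q : ℝ) : ℝ := ∫ s in (1 : ℝ)..q, a s

lemma Ud (q : ℝ) : HasDerivAt U (a q) q := (ac.integral_hasStrictDerivAt 1 q).hasDerivAt

lemma Um : StrictMono U := strictMono_of_deriv_pos fun q => by
  rw [(Ud q).deriv, a]; have := mpos q; positivity

noncomputable def g (x : E 2) : E 2 := !₂[U (‖x‖ ^ 2), Real.arctan (x 1 / x 0)]

noncomputable def t (x : E 2) : ℝ := max 1 (‖x‖ ^ 2)⁻¹

noncomputable def Dg (x : E 2) : Matrix (Fin 2) (Fin 2) ℝ :=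
  !![t x * x 0 / ‖x‖ ^ 2, t x * x 1 / ‖x‖ ^ 2; -x 1 / ‖x‖ ^ 2, x 0 / ‖x‖ ^ 2]

noncomputable def c : E 2 := !₂[1, 0]

lemma nsq (x : E 2) : ‖x‖ ^ 2 = x 0 ^ 2 + x 1 ^ 2 := by
  simp [EuclideanSpace.norm_sq_eq]

lemma mem {x : E 2} (hx : x ∈ closedBall c (1 / 2)) : 1 / 2 ≤ x 0 ∧ 1 / 4 ≤ ‖x‖ ^ 2 ∧ ‖x‖ ≤ 2 := by
  have h := mem_closedBall_iff_norm.1 hx
  have h0 : |(x - c) 0| ≤ 1 / 2 := (PiLp.norm_apply_le (x - c) 0).trans h
  have h1 : 1 / 2 ≤ x 0 := by simp [c, abs_le] at h0; linarith [h0.1]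
  have h2 : ‖c‖ = 1 := by rw [← sq_eq_sq₀ (by positivity) (by positivity), nsq]; simp [c]
  refine ⟨h1, by rw [nsq]; nlinarith [sq_nonneg (x 1)], ?_⟩
  linarith [norm_le_norm_add_norm_sub' x c]

lemma tb {x : E 2} (hx : x ∈ closedBall c (1 / 2)) : 1 ≤ t x ∧ t x ≤ 4 :=
  ⟨le_max_left _ _, max_le (by norm_num) (inv_le_of_inv_le₀ (by norm_num) (by simpa using (mem hx).2.1))⟩

lemma gd {x : E 2} (hx : x ∈ closedBall c (1 / 2)) : HasFDerivAt g (cm (Dg x)) x := by
  obtain ⟨h0, h1, -⟩ := mem hx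
  have p := fun i => (EuclideanSpace.proj (𝕜 := ℝ) i : E 2 →L[ℝ] ℝ).hasStrictFDerivAt (x := x)
  have x0 : x 0 ≠ 0 := by positivity
  have q0 : ‖x‖ ^ 2 ≠ 0 := by positivity
  refine HasStrictFDerivAt.hasFDerivAt ?_
  rw [hasStrictFDerivAt_euclidean, Fin.forall_fin_two]
  constructor
  · refine ((ac.integral_hasStrictDerivAt 1 _).comp_hasStrictFDerivAt x
      (hasStrictFDerivAt_norm_sq x)).congr_fderiv ?_
    ext v
    simp [cm_apply, Dg, a, t, PiLp.inner_apply, max_eq_left (show 8⁻¹ ≤ ‖x‖ ^ 2 by linarith)]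
    field_simp
  · refine ((Real.hasStrictDerivAt_arctan _).comp_hasStrictFDerivAt x ((p 1).mul
      ((hasStrictDerivAt_inv x0).comp_hasStrictFDerivAt x (p 0)))).congr_fderiv ?_
    ext v
    simp [cm_apply, Dg, nsq]
    field_simp

lemma gc : ContinuousOn g (closedBall c (1 / 2)) := fun _ hx => (gd hx).continuousAt.continuousWithinAt

lemma gi : InjOn g (closedBall c (1 / 2)) := fun x hx y hy h => by
  have h0 : U (‖x‖ ^ 2) = U (‖y‖ ^ 2) := congrArg (· 0) h
  have h1 : Real.arctan (x 1 / x 0) = Real.arctan (y 1 / y 0) := congrArg (· 1) h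
  have k0 := Um.injective h0
  have a0 := (mem hx).1
  have b0 := (mem hy).1
  have k1 := (div_eq_div_iff (by positivity) (by positivity)).1 (Real.arctan_injective h1)
  rw [nsq, nsq] at k0
  have e : x 0 = y 0 := by
    have : (x 0 ^ 2 - y 0 ^ 2) * (y 0 ^ 2 + y 1 ^ 2) = 0 := by
      linear_combination (y 0 ^ 2) * k0 - (x 1 * y 0 + y 1 * x 0) * k1
    rcases mul_eq_zero.1 this with j | j
    · exact (sq_eq_sq₀ (by positivity) (by positivity)).1 (sub_eq_zero.1 j)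
    · nlinarith [sq_nonneg (y 1)]
  ext i; fin_cases i
  · exact e
  · rw [e] at k1; exact mul_right_cancel₀ (by positivity) k1

lemma tc : ContinuousOn t (closedBall c (1 / 2)) :=
  continuousOn_const.sup (ContinuousOn.inv₀ (by fun_prop) fun x hx => by have := (mem hx).2.1; positivity)

lemma Dc (i j : Fin 2) : ContinuousOn (fun x => Dg x i j) (closedBall c (1 / 2)) := by
  have := tc
  have k : ∀ x ∈ closedBall c (1 / 2), ‖x‖ ^ 2 ≠ 0 := fun x hx => by have := (mem hx).2.1; positivity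
  fin_cases i <;> fin_cases j <;> simp only [Dg] <;> exact ContinuousOn.div (by fun_prop) (by fun_prop) k

lemma Ddet {x : E 2} (hx : x ∈ closedBall c (1 / 2)) : (Dg x).det = t x / ‖x‖ ^ 2 := by
  have := (mem hx).2.1
  have n := nsq x
  simp [Dg, Matrix.det_fin_two]
  generalize ‖x‖ ^ 2 = Q at *
  field_simp
  rw [n]; ring

lemma cm_le (A : Matrix (Fin 2) (Fin 2) ℝ) {b : ℝ} (hb : 0 ≤ b) (h : ∀ u v : ℝ,
    (A 0 0 * u + A 0 1 * v) ^ 2 + (A 1 0 * u + A 1 1 * v) ^ 2 ≤ b * (u ^ 2 + v ^ 2)) : ‖cm A‖ ^ 2 ≤ b := by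
  rw [← Real.le_sqrt (norm_nonneg _) hb]
  refine ContinuousLinearMap.opNorm_le_bound _ (Real.sqrt_nonneg _) fun v => ?_
  rw [← sq_le_sq₀ (by positivity) (by positivity), mul_pow, Real.sq_sqrt hb, nsq, nsq]
  simpa [cm_apply] using h (v 0) (v 1)

lemma cm_ge (A : Matrix (Fin 2) (Fin 2) ℝ) (j : Fin 2) : A 0 j ^ 2 + A 1 j ^ 2 ≤ ‖cm A‖ ^ 2 := by
  have := (cm A).le_opNorm (EuclideanSpace.single j 1)
  rw [← sq_le_sq₀ (by positivity) (by positivity), nsq] at this
  simpa [cm_apply, Pi.single_apply] using this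

noncomputable def KI (A : Matrix (Fin 2) (Fin 2) ℝ) : ℝ :=
  if 0 < A.det then ‖cm A.adjugate‖ ^ 2 / A.det ^ (2 - 1) else 1

lemma KIg {x : E 2} (hx : x ∈ closedBall c (1 / 2)) :
    0 ≤ KI (Dg x) ∧ KI (Dg x) ≤ t x ∧ ‖cm (Dg x)‖ ^ 2 ≤ 4 * (Dg x).det := by
  have q := (mem hx).2.1
  obtain ⟨t1, t4⟩ := tb hx
  have d : 0 < (Dg x).det := by rw [Ddet hx]; positivity
  have n := nsq x
  rw [KI, if_pos d]
  refine ⟨by positivity, ?_, ?_⟩
  · rw [div_le_iff₀ (by positivity)]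
    refine cm_le _ (by positivity) fun u v => ?_
    rw [Ddet hx]
    simp [Dg, Matrix.adjugate_fin_two]
    generalize ‖x‖ ^ 2 = Q at *
    field_simp
    rw [n]
    nlinarith [mul_nonneg (mul_nonneg (sq_nonneg u) (by nlinarith : 0 ≤ t x ^ 2 - 1))
      (by positivity : 0 ≤ x 0 ^ 2 + x 1 ^ 2)]
  · refine cm_le _ (by positivity) fun u v => ?_
    rw [Ddet hx]
    simp [Dg]
    generalize ‖x‖ ^ 2 = Q at *
    field_simp
    rw [n]
    nlinarith [mul_nonneg (sq_nonneg (x 0 * u + x 1 * v)) (by nlinarith : 0 ≤ 4 * t x - t x ^ 2),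
      mul_nonneg (sq_nonneg (x 0 * v - x 1 * u)) (by nlinarith : 0 ≤ 4 * t x - 1)]

lemma KIh {A : Matrix (Fin 2) (Fin 2) ℝ} {K : ℝ} (h0 : 0 ≤ A.det) (h1 : ‖cm A‖ ^ 2 ≤ K * A.det) :
    1 ≤ KI A ∧ A 0 0 ^ 2 + A 0 1 ^ 2 ≤ KI A * A.det := by
  rcases h0.eq_or_lt with h | h
  · have a0 := cm_ge A 0
    have a1 := cm_ge A 1
    rw [KI, if_neg h.not_lt, ← h]
    rw [← h] at h1
    exact ⟨le_rfl, by nlinarith [sq_nonneg (A 1 0), sq_nonneg (A 1 1)]⟩
  have a0 := cm_ge A.adjugate 0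
  have a1 := cm_ge A.adjugate 1
  rw [KI, if_pos h, show 2 - 1 = 1 from rfl, pow_one, div_mul_cancel₀ _ h.ne', one_le_div h,
    Matrix.det_fin_two]
  generalize ‖cm A.adjugate‖ = N at *
  simp [Matrix.adjugate_fin_two] at a0 a1
  exact ⟨by nlinarith [sq_nonneg (A 0 0 - A 1 1), sq_nonneg (A 0 1 + A 1 0)], by linarith⟩

lemma low {k J p r u v : ℝ} (h0 : 0 ≤ J) (h1 : 1 ≤ k) (h2 : p ^ 2 + r ^ 2 ≤ k * J) (q : 0 < u ^ 2 + v ^ 2) :
    max 1 (u ^ 2 + v ^ 2)⁻¹ ^ 2 + 4 * ((p * u + r * v) / (u ^ 2 + v ^ 2)) - 2 * J -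
      2 * (max 1 (u ^ 2 + v ^ 2)⁻¹ / (u ^ 2 + v ^ 2)) ≤ k ^ 2 := by
  have e : 2 * (p * u + r * v) - (u ^ 2 + v ^ 2) * J ≤ k := by
    rcases h0.eq_or_lt with h | h
    · have : p = 0 := by nlinarith [sq_nonneg r]
      have : r = 0 := by nlinarith [sq_nonneg p]
      subst p r J
      simp; linarith
    · refine le_of_mul_le_mul_right ?_ h
      nlinarith [sq_nonneg (p - u * J), sq_nonneg (r - v * J)]
  set Q := u ^ 2 + v ^ 2
  have e2 : 4 * ((p * u + r * v) / Q) - 2 * J ≤ 2 * (k / Q) := by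
    rw [← sub_nonneg]
    have : 2 * (k / Q) - (4 * ((p * u + r * v) / Q) - 2 * J) = 2 * (k - (2 * (p * u + r * v) - Q * J)) / Q := by
      field_simp; ring
    rw [this]; exact div_nonneg (by linarith) q.le
  simp only [div_eq_mul_inv] at e2 ⊢
  have i0 := inv_pos.2 q
  rcases le_total 1 Q⁻¹ with j | j
  · rw [max_eq_right j]; nlinarith [sq_nonneg (k - Q⁻¹)]
  · rw [max_eq_left j]; nlinarith [sq_nonneg (k - 1), mul_nonneg (sub_nonneg.2 h1) (sub_nonneg.2 j)]

lemma notsm : ¬ ContDiffOn ℝ ∞ g (ball c (1 / 2)) := fun h => by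
  have e : ∀ s : ℝ, ‖s • c‖ ^ 2 = s ^ 2 := fun s => by simp [nsq, c]
  have h1 : ContDiffAt ℝ ∞ (fun s : ℝ => U (s ^ 2)) 1 := by
    have := (EuclideanSpace.proj (𝕜 := ℝ) (0 : Fin 2)).contDiff.contDiffAt.comp (1 : ℝ)
      ((h.contDiffAt (isOpen_ball.mem_nhds (by simp))).comp (1 : ℝ)
        (f := fun s : ℝ => s • c) (by fun_prop))
    exact this.congr_of_eventuallyEq (.of_forall fun s => by simp only [← e s]; rfl)
  have h2 : deriv (fun s : ℝ => U (s ^ 2)) = fun s => a (s ^ 2) * (2 * s) := funext fun s =>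
    ((Ud _).comp s (hasDerivAt_pow 2 s)).deriv.trans (by simp)
  have h3 := ((h1.derivWithin (m := 1) (WithTop.coe_le_coe.2 (le_top (a := (2 : ℕ∞))))).differentiableAt (by simp)).hasDerivAt
  generalize deriv (deriv fun s : ℝ => U (s ^ 2)) 1 = d at h3
  rw [h2] at h3
  have n : ∀ᶠ s : ℝ in 𝓝 1, 1 / 2 < s := lt_mem_nhds (by norm_num)
  have l1 : HasDerivWithinAt (fun s => a (s ^ 2) * (2 * s)) (-1) (Ici 1) 1 := by
    refine ((hasDerivAt_inv one_ne_zero).congr_deriv (by simp)).hasDerivWithinAt.congr_of_mem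
      (fun s (hs : 1 ≤ s) => ?_) (mem_Ici.2 le_rfl)
    have : 1 ≤ s ^ 2 := by nlinarith
    rw [a, max_eq_left (show 1 / 8 ≤ s ^ 2 by linarith), max_eq_left (inv_le_one_of_one_le₀ this)]
    field_simp
  have l2 : HasDerivWithinAt (fun s => a (s ^ 2) * (2 * s)) (-3) (Iic 1) 1 := by
    refine (((hasDerivAt_pow 3 (1 : ℝ)).inv (by simp)).congr_deriv
      (by norm_num)).hasDerivWithinAt.congr_of_eventuallyEq_of_mem ?_ (mem_Iic.2 le_rfl)
    filter_upwards [self_mem_nhdsWithin, mem_nhdsWithin_of_mem_nhds n] with s (hs : s ≤ 1) h0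
    have : 0 < s := by linarith
    rw [a, max_eq_left (show 1 / 8 ≤ s ^ 2 by nlinarith),
      max_eq_right ((one_le_inv₀ (by positivity)).2 (by nlinarith)), Pi.inv_apply]
    field_simp
  have e1 := (uniqueDiffWithinAt_Ici 1).eq_deriv _ l1 h3.hasDerivWithinAt
  have e2 := (uniqueDiffWithinAt_Iic 1).eq_deriv _ l2 h3.hasDerivWithinAt
  linarith

lemma wg (i : Fin 2) : Wk (ball c (1 / 2)) (fun x => g x i) fun j x => Dg x i j := by
  have d : ∀ x ∈ ball c (1 / 2), HasFDerivAt (fun x => g x i) _ x := fun x hx =>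
    (EuclideanSpace.proj (𝕜 := ℝ) i).hasFDerivAt.comp x (gd (ball_subset_closedBall hx))
  exact wk_of isOpen_ball (fun x hx => (d x hx).differentiableAt)
    (fun j x hx => by simp [pd, (d x hx).fderiv, cm_apply, Pi.single_apply])
    fun j => (Dc i j).mono ball_subset_closedBall

lemma gim : g '' closure (ball c (1 / 2)) = closure (g '' ball c (1 / 2)) := by
  have e := closure_ball c (show (1 / 2 : ℝ) ≠ 0 by norm_num)
  exact image_closure_of_isCompact (e ▸ isCompact_closedBall _ _) (e ▸ gc)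

lemma ion {f : E 2 → ℝ} (h : ContinuousOn f (closedBall c (1 / 2))) : IntegrableOn f (ball c (1 / 2)) :=
  (h.integrableOn_compact (isCompact_closedBall _ _)).mono_set ball_subset_closedBall

lemma qc : ContinuousOn (fun x => t x / ‖x‖ ^ 2) (closedBall c (1 / 2)) :=
  tc.div (by fun_prop) fun x hx => by have := (mem hx).2.1; positivity

theorem minim {h : E 2 → E 2} {D : E 2 → Matrix (Fin 2) (Fin 2) ℝ} {K : E 2 → ℝ}
    (ch : ContinuousOn h (closure (ball c (1 / 2)))) (ih : InjOn h (closure (ball c (1 / 2))))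
    (im : h '' closure (ball c (1 / 2)) = closure (g '' ball c (1 / 2)))
    (bd : ∀ x ∈ frontier (ball c (1 / 2)), h x = g x)
    (hD : ∀ i j, LocallyIntegrableOn (fun x => D x i j) (ball c (1 / 2)))
    (H : ∀ i, Wk (ball c (1 / 2)) (fun x => h x i) fun j x => D x i j)
    (lJ : LocallyIntegrableOn (fun x => (D x).det) (ball c (1 / 2)))
    (J0 : ∀ᵐ x ∂volume.restrict (ball c (1 / 2)), 0 ≤ (D x).det)
    (hK : ∀ᵐ x ∂volume.restrict (ball c (1 / 2)), ‖cm (D x)‖ ^ 2 ≤ K x * (D x).det) :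
    ∫⁻ x in ball c (1 / 2), ENNReal.ofReal (KI (Dg x) ^ 2) ≤
      ∫⁻ x in ball c (1 / 2), ENNReal.ofReal (KI (D x) ^ 2) := by
  have r0 : (1 / 2 : ℝ) ≠ 0 := by norm_num
  have mo : MeasurableSet (ball c (1 / 2)) := measurableSet_ball
  have bs : ball c (1 / 2) ⊆ closedBall c (1 / 2) := ball_subset_closedBall
  rw [← gim] at im
  rw [closure_ball c r0] at ch ih im
  rw [frontier_ball c r0] at bd
  refine le_top.eq_or_lt.elim (fun k => le_top.trans k.ge) fun fin => ?_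
  have sb : h '' ball c (1 / 2) ⊆ g '' ball c (1 / 2) := by
    rintro _ ⟨x, hx, rfl⟩
    obtain ⟨y, hy, e⟩ := im ▸ mem_image_of_mem h (bs hx)
    refine ⟨y, by_contra fun k => k ?_, e⟩
    rwa [ih hy (bs hx) ((bd y (mem_sphere.2 (le_antisymm hy (not_lt.1 k)))).trans e)]
  have t0 : ∀ x, 0 ≤ t x := fun x => zero_le_one.trans (le_max_left _ _)
  have ar : ∫⁻ x in ball c (1 / 2), ENNReal.ofReal |(D x).det| ≤
      ENNReal.ofReal (∫ x in ball c (1 / 2), t x / ‖x‖ ^ 2) := by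
    refine (areaM isOpen_ball (ch.mono bs) (ih.mono bs) hD H).trans ((measure_mono sb).trans_eq ?_)
    rw [← lintegral_abs_det_fderiv_eq_addHaar_image volume mo
      (fun x hx => (gd (bs hx)).hasFDerivWithinAt) (gi.mono bs),
      ofReal_integral_eq_lintegral_ofReal (ion qc) (.of_forall fun x => by have := t0 x; positivity)]
    refine setLIntegral_congr_fun mo fun x hx => ?_
    have := t0 x
    simp only [cm_det, Ddet (bs hx), abs_of_nonneg (show 0 ≤ t x / ‖x‖ ^ 2 by positivity)]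
  have iJ : IntegrableOn (fun x => (D x).det) (ball c (1 / 2)) := ⟨lJ.aestronglyMeasurable, by
    rw [hasFiniteIntegral_iff_norm]; exact ar.trans_lt ENNReal.ofReal_lt_top⟩
  have Jle : ∫ x in ball c (1 / 2), (D x).det ≤ ∫ x in ball c (1 / 2), t x / ‖x‖ ^ 2 := by
    refine (integral_mono iJ iJ.abs fun x => le_abs_self _).trans ?_
    rw [← ofReal_integral_eq_lintegral_ofReal iJ.abs (.of_forall fun x => abs_nonneg _)] at ar
    exact (ENNReal.ofReal_le_ofReal_iff (integral_nonneg fun x => by have := t0 x; positivity)).1 ar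
  have kk : ∀ᵐ x ∂volume.restrict (ball c (1 / 2)), 0 ≤ (D x).det ∧ 1 ≤ KI (D x) ∧
      D x 0 0 ^ 2 + D x 0 1 ^ 2 ≤ KI (D x) * (D x).det := by
    filter_upwards [J0, hK] with x a b using ⟨a, KIh a b⟩
  have iD : ∀ j, IntegrableOn (fun x => D x 0 j) (ball c (1 / 2)) := fun j =>
    ⟨(hD 0 j).aestronglyMeasurable, by
      rw [hasFiniteIntegral_iff_norm]
      refine (lintegral_mono_ae (g := fun x => ENNReal.ofReal (KI (D x) ^ 2) + ENNReal.ofReal |(D x).det|)
        (kk.mono fun x ⟨a, b, d⟩ => ?_)).trans_lt ?_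
      · rw [← ENNReal.ofReal_add (by positivity) (by positivity), abs_of_nonneg a]
        refine ENNReal.ofReal_le_ofReal (abs_le_of_sq_le_sq ?_ (by positivity))
        have : D x 0 j ^ 2 ≤ KI (D x) * (D x).det := by
          fin_cases j <;> simp <;> nlinarith [sq_nonneg (D x 0 0), sq_nonneg (D x 0 1)]
        nlinarith [mul_nonneg a (by nlinarith : 0 ≤ 2 * KI (D x) ^ 2 - KI (D x))]
      · rw [lintegral_add_right' _ iJ.abs.1.aemeasurable.ennreal_ofReal]
        exact ENNReal.add_lt_top.2 ⟨fin, ar.trans_lt ENNReal.ofReal_lt_top⟩⟩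
  have q0 : ∀ x ∈ ball c (1 / 2), 0 < ‖x‖ ^ 2 := fun x hx => by have := (mem (bs hx)).2.1; positivity
  have p0 := (EuclideanSpace.proj (𝕜 := ℝ) (0 : Fin 2)).continuous
  have bV : ∀ j, ∀ x ∈ ball c (1 / 2), |x j / ‖x‖ ^ 2| ≤ 8 := fun j x hx => by
    obtain ⟨-, a, b⟩ := mem (bs hx)
    have : |x j| ≤ 2 := (PiLp.norm_apply_le x j).trans b
    rw [abs_div, abs_of_pos (q0 x hx), div_le_iff₀ (q0 x hx)]; linarith
  have sV : ∀ j, ∀ x ∈ ball c (1 / 2), ContDiffAt ℝ ∞ (fun x : E 2 => x j / ‖x‖ ^ 2) x := fun j x hx =>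
    ContDiffAt.div (by fun_prop) (contDiff_norm_sq ℝ).contDiffAt (q0 x hx).ne'
  have iW := fun j => (iD j).sub (ion (Dc 0 j))
  have cu := cut (c := c) (R := 1 / 2) (by norm_num) (w := fun x => h x 0 - g x 0)
    (W := fun j x => D x 0 j - Dg x 0 j) (V := fun j x => x j / ‖x‖ ^ 2)
    ((p0.comp_continuousOn ch).sub (p0.comp_continuousOn gc)) (fun x hx => by rw [bd x hx, sub_self]) iW
    (fun φ h1 h2 h3 j => ?_) sV bV fun x hx => ?_
  rotate_left
  · have ts := tsupport_fderiv_apply_subset (f := φ) ℝ (EuclideanSpace.single j 1)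
    have a1 := intO isOpen_ball (ion (p0.comp_continuousOn ch)).locallyIntegrableOn (pc h1 j) h2 h3 ts
    have a2 := intO isOpen_ball (ion (p0.comp_continuousOn gc)).locallyIntegrableOn (pc h1 j) h2 h3 ts
    have a3 := intO isOpen_ball (iD j).locallyIntegrableOn h1.continuous h2 h3 subset_rfl
    have a4 := intO isOpen_ball (ion (Dc 0 j)).locallyIntegrableOn h1.continuous h2 h3 subset_rfl
    simp only [smul_eq_mul, mul_comm (φ _), mul_comm (pd φ j _)] at a1 a2 a3 a4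
    simp only [sub_mul]
    rw [integral_sub (by exact a1) (by exact a2), integral_sub a3 a4, H 0 φ h1 h2 h3, wg 0 φ h1 h2 h3]
    ring
  · have d : ∀ k : Fin 2, pd (fun x : E 2 => x k / ‖x‖ ^ 2) k x =
        1 / ‖x‖ ^ 2 - 2 * x k ^ 2 / (‖x‖ ^ 2) ^ 2 := fun k => by
      have h1 := ((EuclideanSpace.proj (𝕜 := ℝ) k).hasFDerivAt (x := x)).mul
        ((hasDerivAt_inv (q0 x hx).ne').comp_hasFDerivAt x (hasStrictFDerivAt_norm_sq x).hasFDerivAt)
      rw [pd, show (fun x : E 2 => x k / ‖x‖ ^ 2) = (EuclideanSpace.proj (𝕜 := ℝ) k : E 2 → ℝ) *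
        (fun y => y⁻¹) ∘ fun x : E 2 => ‖x‖ ^ 2 from rfl, h1.fderiv]
      simp [EuclideanSpace.inner_single_right]
      ring
    have n := nsq x
    have := q0 x hx
    rw [d, d]
    generalize ‖x‖ ^ 2 = Q at *
    field_simp
    rw [n]; ring
  have iV : ∀ j, IntegrableOn (fun x => (D x 0 j - Dg x 0 j) * (x j / ‖x‖ ^ 2)) (ball c (1 / 2)) :=
    fun j => (iW j).mul_bdd ((continuousOn_of_forall_continuousAt fun x hx =>
      (sV j x hx).continuousAt).aestronglyMeasurable mo) ((ae_restrict_iff' mo).2 (.of_forall (bV j)))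
  have it := ion (tc.pow 2)
  have i1 := ((iV 0).add (iV 1)).const_mul 4
  have i2 := ((ion qc).sub iJ).const_mul 2
  have il := (it.add i1).add i2
  calc _ ≤ ∫⁻ x in ball c (1 / 2), ENNReal.ofReal (t x ^ 2) :=
        setLIntegral_mono' mo fun x hx => ENNReal.ofReal_le_ofReal
          (pow_le_pow_left₀ (KIg (bs hx)).1 (KIg (bs hx)).2.1 2)
    _ = ENNReal.ofReal (∫ x in ball c (1 / 2), t x ^ 2) :=
        (ofReal_integral_eq_lintegral_ofReal it (.of_forall fun x => sq_nonneg _)).symm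
    _ ≤ ENNReal.ofReal (∫ x in ball c (1 / 2), _) := by
        refine ENNReal.ofReal_le_ofReal (le_trans ?_ (integral_mono il il.pos_part fun x => le_max_left _ _))
        rw [integral_add' (it.add i1) i2, integral_add' it i1, integral_const_mul, integral_const_mul,
          integral_sub' (ion qc) iJ]
        simp only [Pi.add_apply, cu, Pi.pow_apply]
        linarith
    _ = _ := ofReal_integral_eq_lintegral_ofReal il.pos_part (.of_forall fun x => le_max_right _ _)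
    _ ≤ _ := by
        refine lintegral_mono_ae ?_
        filter_upwards [kk, ae_restrict_mem mo] with x ⟨a, b, d⟩ hx
        refine ENNReal.ofReal_le_ofReal (max_le (le_trans (le_of_eq ?_)
          (low a b d (u := x 0) (v := x 1) (nsq x ▸ q0 x hx))) (sq_nonneg _))
        have n := nsq x
        have := q0 x hx
        rw [← n]
        simp only [Pi.add_apply, Pi.sub_apply, Pi.pow_apply, ← t.eq_1]
        simp [Dg]
        generalize ‖x‖ ^ 2 = Q at *
        field_simp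
        rw [n]; ring

end Pool.Agent.H.MP_6ded3d_an
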